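import Pool.Agent.H11.NZ.Targets

/-!
# Module FBA of the board nz_modules (MP_9b2842_al)
-/

set_option autoImplicit false

open Equiv (Perm)

namespace Pool.Agent.H59.NZ.FBA

open Pool.Agent.H11.NY Pool.Agent.H11.NZ

theorem local_set (hTQ : T_TQ) {I : Type} [Fintype I] [DecidableEq I]
    (T : I → Type) [∀ i, Group (T i)] [∀ i, Finite (T i)] (R : Subgroup (∀ i, T i))
    (σ : Perm I) (τ : (∀ i, T i) ≃* (∀ i, T i)) (hτ : Over σ τ)
    (hnc : ∀ i, ∃ x y : T i, x * y ≠ y * x) (J : Finset I) (hJ : ∀ i ∈ J, σ i ∉ J)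
    (hP : ∀ i ∈ J, ∃ j, j ≠ i ∧ (∀ r ∈ R, r i = 1 ↔ r j = 1) ∧ j ∉ J ∧
      (σ.symm j ∈ J → j = σ i)) (i : I) (hi : i ∈ J) :
    ∃ S : Set (T i), 4 * Nat.card S ≤ 3 * Nat.card (T i) ∧
      ∀ w : ∀ i, T i, (∀ i ∉ J, w i = 1) → w⁻¹ * τ w ∈ R → w i ∈ S := by
  obtain ⟨j, hji, hjR, hjJ, hjs⟩ := hP i hi
  -- the coordinate `i` of `r`
  have hri : ∀ w : ∀ i, T i, (∀ i ∉ J, w i = 1) → (w⁻¹ * τ w) i = (w i)⁻¹ := by
    intro w hw
    have h1 : σ.symm i ∉ J := by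
      intro h
      have h2 := hJ _ h
      rw [Equiv.apply_symm_apply] at h2
      exact h2 hi
    have h2 : w (σ.symm i) = (1 : ∀ i, T i) (σ.symm i) := hw _ h1
    have h3 := hτ (σ.symm i) w 1 h2
    rw [Equiv.apply_symm_apply, map_one] at h3
    rw [Pi.mul_apply, Pi.inv_apply, h3, Pi.one_apply, mul_one]
  have hrj : ∀ w : ∀ i, T i, (∀ i ∉ J, w i = 1) → (w⁻¹ * τ w) j = (τ w) j := by
    intro w hw
    rw [Pi.mul_apply, Pi.inv_apply, hw j hjJ, inv_one, one_mul]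
  by_cases hs : σ.symm j ∈ J
  · have hj : j = σ i := hjs hs
    subst hj
    refine ⟨{u | ∃ r ∈ R, r i = u⁻¹ ∧ r (σ i) = (τ (Pi.mulSingle i u)) (σ i)}, ?_, ?_⟩
    · refine hTQ (T i) _ (hnc i) ?_
      rintro u ⟨ru, hru, hu1, hu2⟩ v ⟨rv, hrv, hv1, hv2⟩ ⟨rw', hrw, hw1, hw2⟩
      have hr : ru * rv * rw'⁻¹ ∈ R := R.mul_mem (R.mul_mem hru hrv) (R.inv_mem hrw)
      have h1 : (ru * rv * rw'⁻¹) (σ i) = 1 := by
        rw [Pi.mul_apply, Pi.mul_apply, Pi.inv_apply, hu2, hv2, hw2, Pi.mulSingle_mul, map_mul,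
          Pi.mul_apply, mul_inv_cancel]
      have h2 := (hjR _ hr).2 h1
      rw [Pi.mul_apply, Pi.mul_apply, Pi.inv_apply, hu1, hv1, hw1, inv_inv] at h2
      have h3 : u⁻¹ * v⁻¹ = (u * v)⁻¹ := eq_inv_of_mul_eq_one_left h2
      have h4 : v * u = u * v := by
        have := congrArg (fun z => z⁻¹) h3
        simpa using this
      exact h4.symm
    · intro w hw hwR
      refine ⟨_, hwR, hri w hw, ?_⟩
      rw [hrj w hw]
      exact hτ i w _ (by rw [Pi.mulSingle_eq_same])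
  · refine ⟨{1}, ?_, ?_⟩
    · refine hTQ (T i) _ (hnc i) ?_
      rintro u hu v hv -
      rw [Set.mem_singleton_iff] at hu hv
      rw [hu, hv]
    · intro w hw hwR
      have h2 : w (σ.symm j) = (1 : ∀ i, T i) (σ.symm j) := hw _ hs
      have h3 := hτ (σ.symm j) w 1 h2
      rw [Equiv.apply_symm_apply, map_one] at h3
      have h4 : (w⁻¹ * τ w) j = 1 := by rw [hrj w hw, h3, Pi.one_apply]
      have h5 := (hjR _ hwR).2 h4
      rw [hri w hw, inv_eq_one] at h5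
      exact h5

theorem pf_fba : T_TQ → T_FBA := by
  intro hTQ I _ _ T _ _ R σ τ hτ hnc J hJ hP
  classical
  have hloc := local_set hTQ T R σ τ hτ hnc J hJ hP
  choose S hS hwS using hloc
  have h1 : Nat.card {w : ∀ i, T i // (∀ i ∉ J, w i = 1) ∧ w⁻¹ * τ w ∈ R} ≤
      ∏ i : J, Nat.card (S i.1 i.2) := by
    rw [← Nat.card_pi]
    refine Nat.card_le_card_of_injective
      (fun w (i : J) => (⟨w.1 i.1, hwS i.1 i.2 w.1 w.2.1 w.2.2⟩ : S i.1 i.2)) ?_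
    intro w w' h
    apply Subtype.ext
    funext i
    by_cases hi : i ∈ J
    · exact congrArg Subtype.val (congrFun h ⟨i, hi⟩)
    · rw [w.2.1 i hi, w'.2.1 i hi]
  have h2 : ∏ i : J, Nat.card (T i.1) ≤ Nat.card {w : ∀ i, T i // ∀ i ∉ J, w i = 1} := by
    rw [← Nat.card_pi]
    refine Nat.card_le_card_of_injective
      (fun (u : ∀ i : J, T i.1) => (⟨fun i => if h : i ∈ J then u ⟨i, h⟩ else 1,
        fun i hi => dif_neg hi⟩ : {w : ∀ i, T i // ∀ i ∉ J, w i = 1})) ?_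
    intro u u' h
    funext i
    have h3 := congrFun (congrArg Subtype.val h) i.1
    simpa [i.2] using h3
  calc 4 ^ J.card * Nat.card {w : ∀ i, T i // (∀ i ∉ J, w i = 1) ∧ w⁻¹ * τ w ∈ R}
      ≤ 4 ^ J.card * ∏ i : J, Nat.card (S i.1 i.2) := Nat.mul_le_mul_left _ h1
    _ = ∏ i : J, (4 * Nat.card (S i.1 i.2)) := by
        rw [Finset.prod_mul_distrib, Finset.prod_const, Finset.card_univ, Fintype.card_coe]
    _ ≤ ∏ i : J, (3 * Nat.card (T i.1)) :=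
        Finset.prod_le_prod' fun i _ => hS i.1 i.2
    _ = 3 ^ J.card * ∏ i : J, Nat.card (T i.1) := by
        rw [Finset.prod_mul_distrib, Finset.prod_const, Finset.card_univ, Fintype.card_coe]
    _ ≤ 3 ^ J.card * Nat.card {w : ∀ i, T i // ∀ i ∉ J, w i = 1} := Nat.mul_le_mul_left _ h2

end Pool.Agent.H59.NZ.FBA
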