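import Pool.Agent.H11.NZ.Targets

/-!
# Module NCM of the board nz_modules (MP_9b2842_al)
-/

set_option autoImplicit false

open Equiv (Perm)

namespace Pool.Agent.H59.NZ.NCM

open Pool.Agent.H11.NY Pool.Agent.H11.NZ

theorem ais {Ω : Type} (σ : Perm Ω) (x : Ω) : σ (σ⁻¹ x) = x := σ.apply_symm_apply x

theorem ias {Ω : Type} (σ : Perm Ω) (x : Ω) : σ⁻¹ (σ x) = x := σ.symm_apply_apply x

theorem exists_noncomm {Ω : Type} [Fintype Ω] [DecidableEq Ω] (h5 : 5 ≤ Nat.card Ω)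
    {τ : alternatingGroup Ω} (hτ : τ ≠ 1) :
    ∃ σ₀ : alternatingGroup Ω, τ * (σ₀ * τ * σ₀⁻¹) ≠ σ₀ * τ * σ₀⁻¹ * τ := by
  have : IsSimpleGroup (alternatingGroup Ω) := alternatingGroup.isSimpleGroup h5
  by_contra hcon
  push Not at hcon
  have hN : Subgroup.normalClosure {τ} = ⊤ := by
    refine (Subgroup.Normal.eq_bot_or_eq_top Subgroup.normalClosure_normal).resolve_left ?_
    intro h
    have h1 : τ ∈ Subgroup.normalClosure {τ} :=
      Subgroup.subset_normalClosure (Set.mem_singleton τ)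
    rw [h] at h1
    exact hτ (Subgroup.mem_bot.1 h1)
  have hc : Subgroup.normalClosure {τ} ≤ Subgroup.centralizer {τ} := by
    unfold Subgroup.normalClosure
    rw [Subgroup.closure_le]
    intro x hx
    obtain ⟨y, hy, hyx⟩ := Group.mem_conjugatesOfSet_iff.1 hx
    rw [Set.mem_singleton_iff] at hy
    rw [hy] at hyx
    obtain ⟨c, hc⟩ := isConj_iff.1 hyx
    change x ∈ Subgroup.centralizer {τ}
    rw [Subgroup.mem_centralizer_singleton_iff, ← hc]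
    exact (hcon c).symm
  rw [hN] at hc
  have h2 : τ ∈ Subgroup.center (alternatingGroup Ω) := by
    rw [Subgroup.mem_center_iff]
    intro g
    have := hc (Subgroup.mem_top g)
    exact Subgroup.mem_centralizer_singleton_iff.1 this
  have h3 : Subgroup.center (alternatingGroup Ω) = ⊤ := by
    refine (Subgroup.Normal.eq_bot_or_eq_top inferInstance).resolve_left ?_
    intro h
    rw [h] at h2
    exact hτ (Subgroup.mem_bot.1 h2)
  have h4 : IsMulCommutative (alternatingGroup Ω) := by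
    refine ⟨⟨fun a b => ?_⟩⟩
    have h5 : b ∈ Subgroup.center (alternatingGroup Ω) := by rw [h3]; exact Subgroup.mem_top b
    exact Subgroup.mem_center_iff.1 h5 a
  have h6 := alternatingGroup.isMulCommutative_iff_card_le_three.1 h4
  omega

theorem pf_ncm : T_NCM := by
  intro Ω _ _ hΩ τ hτ
  classical
  have h5 : 5 ≤ Nat.card Ω := by rwa [Nat.card_eq_fintype_card]
  obtain ⟨σ₀, hσ₀⟩ := exists_noncomm h5 hτ
  obtain ⟨ω, hω⟩ : ∃ ω : Ω, (τ : Perm Ω) ((σ₀ : Perm Ω) ((τ : Perm Ω) ((σ₀ : Perm Ω)⁻¹ ω))) ≠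
      (σ₀ : Perm Ω) ((τ : Perm Ω) ((σ₀ : Perm Ω)⁻¹ ((τ : Perm Ω) ω))) := by
    by_contra hcon
    push Not at hcon
    apply hσ₀
    apply Subtype.ext
    ext x
    exact hcon x
  -- the four points
  let f : Fin 4 → Ω := ![(σ₀ : Perm Ω)⁻¹ ω, (τ : Perm Ω) ((σ₀ : Perm Ω)⁻¹ ω),
    (σ₀ : Perm Ω)⁻¹ ((τ : Perm Ω) ω), (τ : Perm Ω) ((σ₀ : Perm Ω)⁻¹ ((τ : Perm Ω) ω))]
  have hgood : ∀ σ : alternatingGroup Ω, (∀ i, (σ : Perm Ω) (f i) = (σ₀ : Perm Ω) (f i)) →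
      τ * (σ * τ * σ⁻¹) ≠ σ * τ * σ⁻¹ * τ := by
    intro σ hσ hcomm
    have e0 : (σ : Perm Ω)⁻¹ ω = (σ₀ : Perm Ω)⁻¹ ω := by
      have h1 : (σ : Perm Ω) ((σ₀ : Perm Ω)⁻¹ ω) = ω := by
        have := hσ 0
        change (σ : Perm Ω) ((σ₀ : Perm Ω)⁻¹ ω) = (σ₀ : Perm Ω) ((σ₀ : Perm Ω)⁻¹ ω) at this
        rw [this, ais]
      rw [← h1, ias, h1]
    have e2 : (σ : Perm Ω)⁻¹ ((τ : Perm Ω) ω) = (σ₀ : Perm Ω)⁻¹ ((τ : Perm Ω) ω) := by
      have h1 : (σ : Perm Ω) ((σ₀ : Perm Ω)⁻¹ ((τ : Perm Ω) ω)) = (τ : Perm Ω) ω := by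
        have := hσ 2
        change (σ : Perm Ω) ((σ₀ : Perm Ω)⁻¹ ((τ : Perm Ω) ω)) =
          (σ₀ : Perm Ω) ((σ₀ : Perm Ω)⁻¹ ((τ : Perm Ω) ω)) at this
        rw [this, ais]
      rw [← h1, ias, h1]
    have e1 : (σ : Perm Ω) ((τ : Perm Ω) ((σ₀ : Perm Ω)⁻¹ ω)) =
        (σ₀ : Perm Ω) ((τ : Perm Ω) ((σ₀ : Perm Ω)⁻¹ ω)) := hσ 1
    have e3 : (σ : Perm Ω) ((τ : Perm Ω) ((σ₀ : Perm Ω)⁻¹ ((τ : Perm Ω) ω))) =
        (σ₀ : Perm Ω) ((τ : Perm Ω) ((σ₀ : Perm Ω)⁻¹ ((τ : Perm Ω) ω))) := hσ 3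
    apply hω
    have h1 := congrArg (fun ρ : alternatingGroup Ω => (ρ : Perm Ω) ω) hcomm
    change (τ : Perm Ω) ((σ : Perm Ω) ((τ : Perm Ω) ((σ : Perm Ω)⁻¹ ω))) =
      (σ : Perm Ω) ((τ : Perm Ω) ((σ : Perm Ω)⁻¹ ((τ : Perm Ω) ω))) at h1
    rw [e0, e2, e1, e3] at h1
    exact h1
  have hcount : (Finset.univ : Finset (alternatingGroup Ω)).card ≤
      (Finset.univ.filter fun σ : alternatingGroup Ω =>
        τ * (σ * τ * σ⁻¹) ≠ σ * τ * σ⁻¹ * τ).card * (Finset.univ : Finset (Fin 4 → Ω)).card := by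
    refine Finset.card_le_mul_card_image_of_maps_to
      (f := fun (σ : alternatingGroup Ω) (i : Fin 4) => (σ : Perm Ω) (f i))
      (fun σ _ => Finset.mem_univ _) _ fun b _ => ?_
    rcases Finset.eq_empty_or_nonempty (Finset.univ.filter fun σ : alternatingGroup Ω =>
      (fun i : Fin 4 => (σ : Perm Ω) (f i)) = b) with h0 | ⟨ρ, hρ⟩
    · rw [h0, Finset.card_empty]
      exact Nat.zero_le _
    · have hρ' := (Finset.mem_filter.1 hρ).2
      refine Finset.card_le_card_of_injOn (fun σ => σ₀ * ρ⁻¹ * σ) ?_ ?_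
      · intro σ hσ
        have hσ' := (Finset.mem_filter.1 (Finset.mem_coe.1 hσ)).2
        refine Finset.mem_coe.2 (Finset.mem_filter.2 ⟨Finset.mem_univ _, hgood _ fun i => ?_⟩)
        have h1 : (σ : Perm Ω) (f i) = (ρ : Perm Ω) (f i) :=
          congrFun (hσ'.trans hρ'.symm) i
        change (σ₀ : Perm Ω) ((ρ : Perm Ω)⁻¹ ((σ : Perm Ω) (f i))) = _
        rw [h1, ias]
      · intro σ _ σ' _ h
        exact mul_left_cancel h
  rw [Finset.card_univ, Finset.card_univ, Fintype.card_fun, Fintype.card_fin, mul_comm] at hcount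
  have e1 : Nat.card (alternatingGroup Ω) = Fintype.card (alternatingGroup Ω) :=
    Nat.card_eq_fintype_card
  have e2 : Nat.card {σ : alternatingGroup Ω // τ * (σ * τ * σ⁻¹) ≠ σ * τ * σ⁻¹ * τ} =
      (Finset.univ.filter fun σ : alternatingGroup Ω =>
        τ * (σ * τ * σ⁻¹) ≠ σ * τ * σ⁻¹ * τ).card := by
    rw [Nat.card_eq_fintype_card, Fintype.card_subtype]
  rw [e1, e2]
  exact hcount

end Pool.Agent.H59.NZ.NCM
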